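import Mathlib
import Pool.Agent.N604.MW.Stm13
import Pool.Agent.N75.AD_ABC

/-!
# Project AP (helper604), task PBC (helper921): Borel-Cantelli

Adapted from `Pool/Agent/N75/AD_ABC.lean`.
-/

set_option autoImplicit false

namespace Pool.Agent.N921.AP

open Finset MeasureTheory Pool.Agent.N604.MW Filter
open Pool.Agent.N459.KW (bc)
open Pool.Agent.N75.AD (summ2)

lemma SW_cont (s k : ℕ) (A : Finset ℕ) (w : ℕ → ℝ) :
    Continuous fun p : (Fin s → ℝ) × ℝ => ∏ i, ‖SW A w (nk k (p.1 i)) p.2‖ := by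
  unfold SW nk
  refine continuous_finsetProd _ fun i _ => Continuous.norm ?_
  refine continuous_finsetSum _ fun x _ => continuous_const.mul (e_continuous.comp ?_)
  fun_prop

lemma SW_cont1 (s k : ℕ) (A : Finset ℕ) (w : ℕ → ℝ) (α : Fin s → ℝ) :
    Continuous fun t : ℝ => ∏ i, ‖SW A w (nk k (α i)) t‖ := by
  unfold SW nk
  refine continuous_finsetProd _ fun i _ => Continuous.norm ?_
  refine continuous_finsetSum _ fun x _ => continuous_const.mul (e_continuous.comp ?_)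
  fun_prop

lemma intProd_measurable (s k : ℕ) (A : Finset ℕ) (w : ℕ → ℝ) (η η' : ℝ) :
    Measurable fun α : Fin s → ℝ => ∫ t in Arc η η', ∏ i, ‖SW A w (nk k (α i)) t‖ := by
  have h : StronglyMeasurable fun p : (Fin s → ℝ) × ℝ => ∏ i, ‖SW A w (nk k (p.1 i)) p.2‖ :=
    (SW_cont s k A w).measurable.stronglyMeasurable
  exact (h.integral_prod_right (ν := volume.restrict (Arc η η'))).measurable

lemma EW_measurable (s k : ℕ) (a : Fin s → ℕ) (w : ℕ → ℝ) (η : ℝ) (n : ℤ) :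
    Measurable fun α : Fin s → ℝ => EW (fun i => Blk (a i)) w (fun i => nk k (α i)) η n := by
  unfold EW
  have h : StronglyMeasurable fun p : (Fin s → ℝ) × ℝ =>
      (Pool.Agent.N604.MW.sq p.2 : ℂ) * (∏ i, SW (Blk (a i)) w (nk k (p.1 i)) p.2) *
        e (-(p.2 * n)) := by
    refine Measurable.stronglyMeasurable (Continuous.measurable ?_)
    refine (Continuous.mul (Continuous.mul ?_ ?_) ?_)
    · refine Complex.continuous_ofReal.comp ?_
      unfold Pool.Agent.N604.MW.sq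
      exact (Real.continuous_sinc.comp (by fun_prop)).pow 2
    · refine continuous_finsetProd _ fun i _ => ?_
      unfold SW nk
      refine continuous_finsetSum _ fun x _ => continuous_const.mul (e_continuous.comp ?_)
      fun_prop
    · refine e_continuous.comp ?_
      fun_prop
  exact (h.integral_prod_right (ν := volume.restrict {t : ℝ | η ≤ |t|})).measurable

/-- the threshold -/
noncomputable def Tn (s k ν : ℕ) : ℝ := (2 : ℝ) ^ ((ν : ℝ) * ((s : ℝ) - k)) / (ν + 1)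

/-- the first exceptional set -/
def E1 (s k D ν : ℕ) : Set (Fin s → ℝ) :=
  {α | Tn s k ν <
    ∫ t in Arc ((2 : ℝ) ^ (-((k : ℝ) * ν)) * ((ν : ℝ) + 1) ^ D) ((2 : ℝ) ^ (-((k : ℝ) * ν / 2))),
      ∏ i, ‖SW (range (2 ^ ν)) lam (nk k (α i)) t‖}

lemma summ3 (C : ℝ) : Summable fun ν : ℕ => C * (1 / ((ν : ℝ) + 1) ^ 3) := by
  have h1 : Summable fun n : ℕ => 1 / ((n : ℝ)) ^ 3 := Real.summable_one_div_nat_pow.2 (by norm_num)
  have h2 := ((summable_nat_add_iff 1).2 h1).mul_left C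
  refine h2.congr fun ν => ?_
  push_cast
  rfl

lemma part1 (h5 : S_PL1) {k s D : ℕ} (hk : 3 ≤ k) (hks : k < s) (hD : (s + 4) * k ≤ D * (s - k)) :
    ∀ᵐ α ∂(GM s), ∃ ν0 : ℕ, ∀ ν, ν0 ≤ ν → α ∉ E1 s k D ν := by
  obtain ⟨C, hC, hX⟩ := h5 k s hk hks
  refine bc (GM s) _ _ (summ3 C) 0 fun ν _ => ?_
  have hν : (0 : ℝ) < (ν : ℝ) + 1 := by positivity
  set A0 : ℝ := (2 : ℝ) ^ (-((k : ℝ) * ν)) * ((ν : ℝ) + 1) ^ D with hA0
  have hA0pos : 0 < A0 := mul_pos (Real.rpow_pos_of_pos (by norm_num) _) (by positivity)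
  have hb := hX ν A0 hA0pos
  have hTpos : 0 < Tn s k ν := div_pos (Real.rpow_pos_of_pos (by norm_num) _) hν
  set I : (Fin s → ℝ) → ℝ := fun α =>
    ∫ t in Arc A0 ((2 : ℝ) ^ (-((k : ℝ) * ν / 2))),
      ∏ i, ‖SW (range (2 ^ ν)) lam (nk k (α i)) t‖ with hI
  have hImeas : Measurable I := intProd_measurable s k _ _ _ _
  have hsub : E1 s k D ν ⊆ {α | ENNReal.ofReal (Tn s k ν) ≤ ENNReal.ofReal (I α)} := by
    intro α hα
    exact ENNReal.ofReal_le_ofReal (le_of_lt hα)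
  have hmark := meas_ge_le_lintegral_div (μ := GM s) (hImeas.ennreal_ofReal.aemeasurable)
    (ε := ENNReal.ofReal (Tn s k ν)) (by simpa using hTpos) ENNReal.ofReal_ne_top
  have hle : ∫⁻ α, ENNReal.ofReal (I α) ∂(GM s) ≤
      ∫⁻ α, (∫⁻ t in Arc A0 ((2 : ℝ) ^ (-((k : ℝ) * ν / 2))),
      ENNReal.ofReal (∏ i, ‖SW (range (2 ^ ν)) lam (nk k (α i)) t‖)) ∂(GM s) := by
    refine lintegral_mono fun α => ?_
    simp only [hI]
    rw [integral_eq_lintegral_of_nonneg_ae]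
    · exact ENNReal.ofReal_toReal_le
    · exact Filter.Eventually.of_forall fun β => Finset.prod_nonneg fun i _ => norm_nonneg _
    · exact (SW_cont1 s k _ _ α).aestronglyMeasurable
  refine (measure_mono hsub).trans (hmark.trans ?_)
  refine (ENNReal.div_le_div_right (hle.trans hb) _).trans ?_
  rw [← ENNReal.ofReal_div_of_pos hTpos]
  refine ENNReal.ofReal_le_ofReal ?_
  have hk0 : (0 : ℝ) < k := by
    have : 0 < k := by omega
    exact_mod_cast this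
  have hks' : (k : ℝ) < s := by exact_mod_cast hks
  have e1 : A0 ^ (1 - (s : ℝ) / k) =
      (2 : ℝ) ^ ((ν : ℝ) * ((s : ℝ) - k)) * ((ν : ℝ) + 1) ^ ((D : ℝ) * (1 - (s : ℝ) / k)) := by
    rw [hA0, Real.mul_rpow (Real.rpow_pos_of_pos (by norm_num) _).le (by positivity),
      ← Real.rpow_mul (by norm_num), ← Real.rpow_natCast ((ν : ℝ) + 1) D, ← Real.rpow_mul hν.le]
    congr 2
    field_simp
    ring
  have e2 : ((ν : ℝ) + 1) ^ ((D : ℝ) * (1 - (s : ℝ) / k)) ≤ ((ν : ℝ) + 1) ^ (-((s : ℝ) + 4)) := by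
    apply Real.rpow_le_rpow_of_exponent_le (by linarith [(Nat.cast_nonneg ν : (0 : ℝ) ≤ ν)])
    have h6 : ((s : ℝ) + 4) * k ≤ D * ((s : ℝ) - k) := by
      have h7 : (((s + 4) * k : ℕ) : ℝ) ≤ ((D * (s - k) : ℕ) : ℝ) := by exact_mod_cast hD
      push_cast [Nat.cast_sub hks.le] at h7
      exact h7
    have h8 : (D : ℝ) * (1 - (s : ℝ) / k) = -(D * ((s : ℝ) - k) / k) := by
      field_simp
      ring
    rw [h8]
    have h9 : (s : ℝ) + 4 ≤ D * ((s : ℝ) - k) / k := by rwa [le_div_iff₀ hk0]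
    linarith
  have e3 : ((ν : ℝ) + 1) ^ (-((s : ℝ) + 4)) = 1 / (((ν : ℝ) + 1) ^ s * ((ν : ℝ) + 1) ^ 4) := by
    rw [Real.rpow_neg hν.le, Real.rpow_add hν, Real.rpow_natCast, one_div]
    congr 2
    exact_mod_cast Real.rpow_natCast ((ν : ℝ) + 1) 4
  rw [e1, div_le_iff₀ hTpos]
  have hP : 0 < (2 : ℝ) ^ ((ν : ℝ) * ((s : ℝ) - k)) := Real.rpow_pos_of_pos (by norm_num) _
  calc C * ((ν : ℝ) + 1) ^ s * ((2 : ℝ) ^ ((ν : ℝ) * ((s : ℝ) - k)) *
        ((ν : ℝ) + 1) ^ ((D : ℝ) * (1 - (s : ℝ) / k)))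
      ≤ C * ((ν : ℝ) + 1) ^ s * ((2 : ℝ) ^ ((ν : ℝ) * ((s : ℝ) - k)) *
        (1 / (((ν : ℝ) + 1) ^ s * ((ν : ℝ) + 1) ^ 4))) := by
        rw [← e3]
        exact mul_le_mul_of_nonneg_left (mul_le_mul_of_nonneg_left e2 hP.le) (by positivity)
    _ = C * (1 / ((ν : ℝ) + 1) ^ 3) * Tn s k ν := by
        unfold Tn
        field_simp

/-- the second exceptional set -/
def E2 (s k : ℕ) (δ' : ℝ) (ν : ℕ) : Set (Fin s → ℝ) :=
  {α | ∃ n : ℤ, |(n : ℝ)| ≤ (2 : ℝ) ^ ((ν : ℝ) * ((k : ℝ) + 1 / 4)) ∧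
    ∃ a : Fin s → ℕ, (∀ i, a i ≤ ν) ∧ (2 : ℝ) ^ ((ν : ℝ) * ((s : ℝ) - k - 2 * δ')) <
      ‖EW (fun i => Blk (a i)) lam (fun i => nk k (α i)) ((2 : ℝ) ^ (-((k : ℝ) * ν / 2))) n‖}

lemma lam_le {a ν x : ℕ} (ha : a ≤ ν) (hx : x ∈ Blk a) : |lam x| ≤ (ν : ℝ) + 1 := by
  unfold lam
  split_ifs with hp
  · have h1 : 1 ≤ x := hp.one_lt.le
    have h2 : x < 2 ^ ν := by
      unfold Blk at hx
      split_ifs at hx with h0
      · rw [Finset.mem_singleton] at hx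
        omega
      · exact (Finset.mem_Ico.1 hx).2.trans_le (Nat.pow_le_pow_right (by norm_num) ha)
    have h3 : 0 ≤ Real.log x := Real.log_natCast_nonneg x
    rw [abs_of_nonneg h3]
    have h4 : (x : ℝ) ≤ 2 ^ ν := by exact_mod_cast h2.le
    have h5 : Real.log x ≤ ν * Real.log 2 := by
      rw [← Real.log_pow]
      exact Real.log_le_log (by exact_mod_cast h1) h4
    have h6 : Real.log 2 ≤ 1 := by
      have := Real.log_two_lt_d9
      linarith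
    have h7 : (ν : ℝ) * Real.log 2 ≤ ν * 1 := mul_le_mul_of_nonneg_left h6 (Nat.cast_nonneg ν)
    linarith
  · rw [abs_zero]
    positivity

lemma part2 (h1 : S_PMOM) (h2 : S_AHOL) (h3 : S_AKEY) {r m k s : ℕ} {δ' : ℝ} (hr : 1 ≤ r) (hrk : r + 8 ≤ k)
    (hrk' : 6 * r ≤ k) (hnr : nr r ≤ 2 * m) (hks : k < s)
    (hH : r * k + k + 2 + (2 * m - r) * (r + 1) ≤ r * s)
    (hH' : 6 * m * r + 3 * k * nr r + 5 * (k + 2) ≤ 4 * m * (s - k)) (hm : 1 ≤ m)
    (hδ' : 4 * m * δ' < 3 / 4) :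
    ∀ᵐ α ∂(GM s), ∃ ν0 : ℕ, ∀ ν, ν0 ≤ ν → α ∉ E2 s k δ' ν := by
  obtain ⟨ν0, hν0⟩ := h3 r m k s hr hrk hrk' hnr hks hH hH'
  refine bc (GM s) _ _ (summ2 9 (2 * m * s + s) (sub_pos.2 hδ')) ν0 fun ν hν => ?_
  have hkey := hν0 ν hν
  set η : ℝ := (2 : ℝ) ^ (-((k : ℝ) * ν / 2)) with hη
  have hη0 : 0 < η := Real.rpow_pos_of_pos (by norm_num) _
  set T : ℝ := (2 : ℝ) ^ ((ν : ℝ) * ((s : ℝ) - k - 2 * δ')) with hT
  have hTpos : 0 < T := Real.rpow_pos_of_pos (by norm_num) _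
  -- one integer and one vector of blocks
  have hone : ∀ (n : ℤ) (a : Fin s → ℕ), (∀ i, a i ≤ ν) →
      (GM s) {α | T < ‖EW (fun i => Blk (a i)) lam (fun i => nk k (α i)) η n‖} ≤
      ENNReal.ofReal (3 * ((ν : ℝ) + 1) ^ (2 * m * s) *
        (2 : ℝ) ^ ((ν : ℝ) * (4 * m * δ' - k - 1))) := by
    intro n a ha
    have hTm : 0 < T ^ (2 * m) := pow_pos hTpos _
    have hsub : {α : Fin s → ℝ | T < ‖EW (fun i => Blk (a i)) lam (fun i => nk k (α i)) η n‖} ⊆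
        {α | ENNReal.ofReal (T ^ (2 * m)) ≤
          ENNReal.ofReal (‖EW (fun i => Blk (a i)) lam (fun i => nk k (α i)) η n‖ ^ (2 * m))} := by
      intro α hα
      exact ENNReal.ofReal_le_ofReal (pow_le_pow_left₀ hTpos.le (le_of_lt hα) _)
    have hmeas : Measurable fun α : Fin s → ℝ =>
        ENNReal.ofReal (‖EW (fun i => Blk (a i)) lam (fun i => nk k (α i)) η n‖ ^ (2 * m)) :=
      ((EW_measurable s k a lam η n).norm.pow_const _).ennreal_ofReal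
    have hmark := meas_ge_le_lintegral_div (μ := GM s) hmeas.aemeasurable
      (ε := ENNReal.ofReal (T ^ (2 * m))) (by simpa using hTm) ENNReal.ofReal_ne_top
    refine (measure_mono hsub).trans (hmark.trans ?_)
    have hS : MeasurableSet {γ : Fin (2 * m) → ℝ | ∀ j, η ≤ |γ j|} := by
      rw [Set.setOf_forall]
      refine MeasurableSet.iInter fun j => ?_
      exact (isClosed_le continuous_const (by fun_prop)).measurableSet
    have hhol := h2 s (2 * m) k a {γ : Fin (2 * m) → ℝ | ∀ j, η ≤ |γ j|} _ (by omega) hS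
      (fun i => hkey (a i) (ha i))
    have hb := (h1 s m (by omega) hm k a lam ((ν : ℝ) + 1) η n hη0.le (by positivity)
      (fun i x hx => lam_le (ha i) hx)).trans (mul_le_mul_right hhol _)
    refine (ENNReal.div_le_div_right hb _).trans ?_
    rw [← ENNReal.ofReal_mul (by positivity), ← ENNReal.ofReal_div_of_pos hTm]
    refine ENNReal.ofReal_le_ofReal (le_of_eq ?_)
    rw [div_eq_iff hTm.ne']
    have e0 : (2 : ℝ) ^ ((ν : ℝ) * (2 * (m : ℝ) * ((s : ℝ) - k) - k - 1)) =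
        (2 : ℝ) ^ ((ν : ℝ) * (4 * m * δ' - k - 1)) * T ^ (2 * m) := by
      rw [hT, ← Real.rpow_natCast ((2 : ℝ) ^ ((ν : ℝ) * ((s : ℝ) - k - 2 * δ'))),
        ← Real.rpow_mul (by norm_num), ← Real.rpow_add (by norm_num)]
      congr 1
      push_cast
      ring
    rw [e0]
    ring
  -- the union
  set Y : ℝ := (2 : ℝ) ^ ((ν : ℝ) * ((k : ℝ) + 1 / 4)) with hY
  have hY1 : 1 ≤ Y := Real.one_le_rpow (by norm_num) (by positivity)
  set M : ℤ := ⌊Y⌋ with hMd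
  have hM0 : 0 ≤ M := Int.floor_nonneg.2 (by linarith)
  have hsub : E2 s k δ' ν ⊆ ⋃ z ∈ (Finset.Icc (-M) M) ×ˢ
      (Fintype.piFinset fun _ : Fin s => Finset.range (ν + 1)),
        {α | T < ‖EW (fun i => Blk (z.2 i)) lam (fun i => nk k (α i)) η z.1‖} := by
    rintro α ⟨n, hn, a, ha, hα⟩
    have h1 : |n| ≤ M := by
      refine Int.le_floor.2 ?_
      push_cast
      exact hn
    simp only [Set.mem_iUnion]
    refine ⟨(n, a), ?_, hα⟩
    rw [Finset.mem_product]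
    refine ⟨Finset.mem_Icc.2 (abs_le.1 h1), ?_⟩
    rw [Fintype.mem_piFinset]
    intro i
    rw [Finset.mem_range]
    exact Nat.lt_succ_of_le (ha i)
  have hcard : (((Finset.Icc (-M) M) ×ˢ
      (Fintype.piFinset fun _ : Fin s => Finset.range (ν + 1))).card : ℝ) ≤
      3 * Y * ((ν : ℝ) + 1) ^ s := by
    rw [Finset.card_product, Fintype.card_piFinset, Finset.prod_const, Finset.card_univ,
      Fintype.card_fin, Finset.card_range, Int.card_Icc]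
    have h2 : (((M + 1 - -M).toNat : ℕ) : ℝ) = 2 * M + 1 := by
      have h3 : (((M + 1 - -M).toNat : ℕ) : ℤ) = M + 1 - -M := Int.toNat_of_nonneg (by omega)
      have h4 : (((M + 1 - -M).toNat : ℕ) : ℝ) = ((M + 1 - -M : ℤ) : ℝ) := by
        rw [← h3]
        rfl
      rw [h4]
      push_cast
      ring
    rw [Nat.cast_mul, h2]
    push_cast
    have h5 : (M : ℝ) ≤ Y := Int.floor_le _
    exact mul_le_mul_of_nonneg_right (by linarith) (by positivity)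
  refine (measure_mono hsub).trans ((measure_biUnion_finset_le _ _).trans ?_)
  refine (Finset.sum_le_card_nsmul _ _ _ fun z hz => hone z.1 z.2 ?_).trans ?_
  · intro i
    have h1 := Fintype.mem_piFinset.1 (Finset.mem_product.1 hz).2 i
    rw [Finset.mem_range] at h1
    omega
  rw [nsmul_eq_mul, ← ENNReal.ofReal_natCast, ← ENNReal.ofReal_mul (Nat.cast_nonneg _)]
  refine ENNReal.ofReal_le_ofReal ?_
  have hR : 0 ≤ 3 * ((ν : ℝ) + 1) ^ (2 * m * s) *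
      (2 : ℝ) ^ ((ν : ℝ) * (4 * m * δ' - k - 1)) := by positivity
  refine (mul_le_mul_of_nonneg_right hcard hR).trans (le_of_eq ?_)
  have e1 : Y * (2 : ℝ) ^ ((ν : ℝ) * (4 * m * δ' - k - 1)) =
      (2 : ℝ) ^ ((ν : ℝ) * (-(3 / 4 - 4 * m * δ'))) := by
    rw [hY, ← Real.rpow_add (by norm_num)]
    congr 1
    ring
  rw [← e1, pow_add]
  ring

theorem pbc (_h0 : S_ATRI) (h1 : S_PMOM) (h2 : S_AHOL) (h3 : S_AKEY) (h4 : S_PEXP) (h5 : S_PL1) :
    S_PBC := by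
  intro r m k s D hr hrk hrk' hnr hks hH hH' hD
  have hm : 1 ≤ m := by
    have h6 : 1 ≤ nr r := by
      unfold nr
      have h7 : 0 < 4 * r * (r + 2) * 2 ^ (r + 2) := by positivity
      exact h7
    omega
  have hm1 : (1 : ℝ) ≤ m := by exact_mod_cast hm
  set δ' : ℝ := 1 / (8 * m) with hδ'
  have hδ'0 : 0 < δ' := by positivity
  have hδ'm : 4 * m * δ' < 3 / 4 := by
    have h8 : 4 * (m : ℝ) * (1 / (8 * m)) = 1 / 2 := by field_simp; norm_num
    rw [hδ', h8]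
    norm_num
  filter_upwards [part1 h5 (by omega : 3 ≤ k) hks hD,
    part2 h1 h2 h3 hr hrk hrk' hnr hks hH hH' hm hδ'm] with α hα1 hα2
  obtain ⟨ν1, hν1⟩ := hα1
  obtain ⟨ν2, hν2⟩ := hα2
  obtain ⟨ν3, hν3⟩ : ∃ ν3 : ℕ, ∀ ν : ℕ, ν3 ≤ ν →
      ((ν : ℝ) + 1) ^ (s + 1) * (2 : ℝ) ^ ((ν : ℝ) * (-(2 * δ'))) ≤ 1 := by
    have h6 := (summ2 1 (s + 1) (by positivity : 0 < 2 * δ')).tendsto_atTop_zero
    have h7 := h6.eventually (ge_mem_nhds (show (0 : ℝ) < 1 by norm_num))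
    obtain ⟨ν3, hν3⟩ := eventually_atTop.1 h7
    refine ⟨ν3, fun ν hν => ?_⟩
    have h8 := hν3 ν hν
    rwa [one_mul] at h8
  refine ⟨max ν1 (max ν2 ν3), fun ν hν => ?_⟩
  have a1 := hν1 ν ((le_max_left _ _).trans hν)
  have a2 := hν2 ν (((le_max_left _ _).trans (le_max_right _ _)).trans hν)
  have a3 := hν3 ν (((le_max_right _ _).trans (le_max_right _ _)).trans hν)
  refine ⟨not_lt.1 a1, fun n hn => ?_⟩
  have h6 := h4 s ν lam (fun i => nk k (α i)) ((2 : ℝ) ^ (-((k : ℝ) * ν / 2)))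
    ((2 : ℝ) ^ ((ν : ℝ) * ((s : ℝ) - k - 2 * δ'))) n
    (Real.rpow_pos_of_pos (by norm_num) _).le (fun a ha => by
      by_contra hcon
      exact a2 ⟨n, hn, a, ha, not_le.1 hcon⟩)
  refine h6.trans ?_
  have hν1' : (0 : ℝ) < (ν : ℝ) + 1 := by positivity
  have e1 : (2 : ℝ) ^ ((ν : ℝ) * ((s : ℝ) - k - 2 * δ')) =
      (2 : ℝ) ^ ((ν : ℝ) * (-(2 * δ'))) * (2 : ℝ) ^ ((ν : ℝ) * ((s : ℝ) - k)) := by
    rw [← Real.rpow_add (by norm_num)]
    congr 1
    ring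
  rw [le_div_iff₀ hν1', e1]
  calc ((ν : ℝ) + 1) ^ s * ((2 : ℝ) ^ ((ν : ℝ) * (-(2 * δ'))) * (2 : ℝ) ^ ((ν : ℝ) * ((s : ℝ) - k))) *
        ((ν : ℝ) + 1)
      = (((ν : ℝ) + 1) ^ (s + 1) * (2 : ℝ) ^ ((ν : ℝ) * (-(2 * δ')))) *
        (2 : ℝ) ^ ((ν : ℝ) * ((s : ℝ) - k)) := by
        rw [pow_succ]
        ring
    _ ≤ (2 : ℝ) ^ ((ν : ℝ) * ((s : ℝ) - k)) :=
        mul_le_of_le_one_left (Real.rpow_pos_of_pos (by norm_num) _).le a3

end Pool.Agent.N921.AP
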