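import Pool.Agent.N699.AO.Stm

set_option autoImplicit false

/-!
# The series (project AO, leaf SERN2)
-/

namespace Pool.Agent.N921.AO

open Finset Pool.Agent.N699.AO

/-- `n ^ (-3/2)` -/
noncomputable def b (n : ℕ) : ℝ := 1 / ((n : ℝ) * √(n : ℝ))

theorem b_nonneg (n : ℕ) : 0 ≤ b n := by unfold b; positivity

theorem b_mul (m n : ℕ) : b (m * n) = b m * b n := by
  unfold b
  rw [Nat.cast_mul, Real.sqrt_mul (Nat.cast_nonneg m), div_mul_div_comm]
  congr 1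
  · ring
  · ring

theorem sum_b (N : ℕ) : ∑ n ∈ Icc 1 N, b n ≤ 3 := by
  have key : ∀ N : ℕ, ∑ n ∈ Icc 1 (N + 1), b n ≤ 3 - 2 / √((N : ℝ) + 1) := by
    intro N
    induction N with
    | zero =>
      simp [b]
      norm_num
    | succ N ih =>
      rw [Finset.sum_Icc_succ_top (by omega)]
      have h1 : b (N + 1 + 1) ≤ 2 / √((N : ℝ) + 1) - 2 / √((N : ℝ) + 1 + 1) := by
        unfold b
        push_cast
        obtain ⟨x, hx⟩ : ∃ x, x = √((N : ℝ) + 1) := ⟨_, rfl⟩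
        obtain ⟨y, hy⟩ : ∃ y, y = √((N : ℝ) + 1 + 1) := ⟨_, rfl⟩
        have hx2 : x ^ 2 = (N : ℝ) + 1 := by rw [hx, Real.sq_sqrt (by positivity)]
        have hy2 : y ^ 2 = (N : ℝ) + 1 + 1 := by rw [hy, Real.sq_sqrt (by positivity)]
        have hx0 : 0 < x := by rw [hx]; exact Real.sqrt_pos.2 (by positivity)
        have hy0 : 0 < y := by rw [hy]; exact Real.sqrt_pos.2 (by positivity)
        have hxy : x ≤ y := by
          rw [hx, hy]
          exact Real.sqrt_le_sqrt (by linarith)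
        rw [← hx, ← hy, ← hy2, div_sub_div _ _ hx0.ne' hy0.ne', div_le_div_iff₀ (by positivity)
          (by positivity)]
        have h3 : y ^ 2 - x ^ 2 = 1 := by rw [hx2, hy2]; ring
        have h4 : (y - x) * (y + x) = 1 := by linarith
        have h5 : 1 ≤ (y - x) * (2 * y) := by
          rw [← h4]
          apply mul_le_mul_of_nonneg_left _ (by linarith)
          linarith
        have h6 : 1 * (x * y) ≤ y * y := by nlinarith
        calc 1 * (x * y) ≤ y * y := h6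
          _ = 1 * (y * y) := by ring
          _ ≤ ((y - x) * (2 * y)) * (y * y) := by
            apply mul_le_mul_of_nonneg_right h5 (by positivity)
          _ = (2 * y - x * 2) * (y ^ 2 * y) := by ring
      push_cast
      linarith
  rcases N with _ | N
  · simp
  · refine (key N).trans ?_
    have : 0 ≤ 2 / √((N : ℝ) + 1) := by positivity
    linarith

theorem sum_b_dvd (g N : ℕ) (hg : 1 ≤ g) :
    ∑ d ∈ Icc 1 N, (if g ∣ d then b d else 0) ≤ b g * 3 := by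
  rw [← Finset.sum_filter]
  have hsub : (Icc 1 N).filter (fun d => g ∣ d) ⊆ (Icc 1 N).image (fun d => g * d) := by
    intro d hd
    rw [mem_filter, mem_Icc] at hd
    obtain ⟨⟨h1, h2⟩, c, rfl⟩ := hd
    rw [mem_image]
    refine ⟨c, ?_, rfl⟩
    rw [mem_Icc]
    constructor
    · rcases Nat.eq_zero_or_pos c with rfl | h
      · simp at h1
      · exact h
    · exact (Nat.le_mul_of_pos_left c hg).trans h2
  refine (sum_le_sum_of_subset_of_nonneg hsub (fun _ _ _ => b_nonneg _)).trans ?_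
  rw [sum_image (by
    intro x _ y _ h
    exact Nat.eq_of_mul_eq_mul_left hg h)]
  simp only [b_mul]
  rw [← mul_sum]
  exact mul_le_mul_of_nonneg_left (sum_b N) (b_nonneg g)

theorem sum_inv_sq (N : ℕ) : ∑ n ∈ Icc 1 N, 1 / (n : ℝ) ^ 2 ≤ 2 := by
  have key : ∀ N : ℕ, ∑ n ∈ Icc 1 (N + 1), 1 / (n : ℝ) ^ 2 ≤ 2 - 1 / ((N : ℝ) + 1) := by
    intro N
    induction N with
    | zero => simp; norm_num
    | succ N ih =>
      rw [Finset.sum_Icc_succ_top (by omega)]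
      have h1 : 1 / (((N + 1 + 1 : ℕ) : ℝ)) ^ 2 ≤ 1 / ((N : ℝ) + 1) - 1 / ((N : ℝ) + 1 + 1) := by
        push_cast
        have h0 : (0 : ℝ) ≤ N := Nat.cast_nonneg N
        rw [div_sub_div _ _ (by positivity) (by positivity), div_le_div_iff₀ (by positivity)
          (by positivity)]
        nlinarith
      push_cast at h1 ⊢
      linarith
  rcases N with _ | N
  · simp
  · refine (key N).trans ?_
    have : 0 ≤ 1 / ((N : ℝ) + 1) := by positivity
    linarith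

theorem sum_gcd (N : ℕ) :
    ∑ d ∈ Icc 1 N, ∑ e ∈ Icc 1 N, (Nat.gcd d e : ℝ) * (b d * b e) ≤ 18 := by
  have h1 : ∀ d ∈ Icc 1 N, ∀ e ∈ Icc 1 N, (Nat.gcd d e : ℝ) * (b d * b e) ≤
      ∑ g ∈ Icc 1 N, (g : ℝ) * ((if g ∣ d then b d else 0) * (if g ∣ e then b e else 0)) := by
    intro d hd e he
    rw [mem_Icc] at hd he
    have hg : Nat.gcd d e ∈ Icc 1 N := by
      rw [mem_Icc]
      exact ⟨Nat.gcd_pos_of_pos_left _ hd.1, (Nat.gcd_le_left _ hd.1).trans hd.2⟩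
    have := single_le_sum (f := fun g : ℕ => (g : ℝ) * ((if g ∣ d then b d else 0) *
      (if g ∣ e then b e else 0))) (s := Icc 1 N) (fun g _ => by
        have := b_nonneg d
        have := b_nonneg e
        positivity) hg
    simpa only [Nat.gcd_dvd_left, Nat.gcd_dvd_right, if_true] using this
  calc ∑ d ∈ Icc 1 N, ∑ e ∈ Icc 1 N, (Nat.gcd d e : ℝ) * (b d * b e)
      ≤ ∑ d ∈ Icc 1 N, ∑ e ∈ Icc 1 N, ∑ g ∈ Icc 1 N,
        (g : ℝ) * ((if g ∣ d then b d else 0) * (if g ∣ e then b e else 0)) :=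
        sum_le_sum fun d hd => sum_le_sum fun e he => h1 d hd e he
    _ = ∑ g ∈ Icc 1 N, (g : ℝ) * ((∑ d ∈ Icc 1 N, (if g ∣ d then b d else 0)) *
        ∑ e ∈ Icc 1 N, (if g ∣ e then b e else 0)) := by
        simp_rw [sum_mul_sum, mul_sum]
        rw [sum_comm' (t' := Icc 1 N) (s' := fun _ => Icc 1 N) (by simp [and_comm])]
        conv_lhs =>
          arg 2
          ext e
          rw [sum_comm]
        rw [sum_comm]
        apply sum_congr rfl
        intro g _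
        rw [sum_comm]
    _ ≤ ∑ g ∈ Icc 1 N, 9 * (1 / (g : ℝ) ^ 2) := by
        apply sum_le_sum
        intro g hg
        rw [mem_Icc] at hg
        have h2 := sum_b_dvd g N hg.1
        have h3 : 0 ≤ ∑ d ∈ Icc 1 N, (if g ∣ d then b d else 0) :=
          sum_nonneg fun d _ => by
            have := b_nonneg d
            positivity
        have h4 : b g * b g = 1 / (g : ℝ) ^ 3 := by
          unfold b
          have hg0 : (0 : ℝ) < g := by exact_mod_cast hg.1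
          have h5 : √(g : ℝ) * √(g : ℝ) = g := Real.mul_self_sqrt hg0.le
          rw [div_mul_div_comm, one_mul]
          congr 1
          calc (g : ℝ) * √(g : ℝ) * ((g : ℝ) * √(g : ℝ)) = (g : ℝ) * g * (√(g : ℝ) * √(g : ℝ)) := by
                ring
            _ = (g : ℝ) ^ 3 := by rw [h5]; ring
        have hg0 : (0 : ℝ) < g := by exact_mod_cast hg.1
        calc (g : ℝ) * ((∑ d ∈ Icc 1 N, (if g ∣ d then b d else 0)) *
            ∑ e ∈ Icc 1 N, (if g ∣ e then b e else 0))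
            ≤ (g : ℝ) * ((b g * 3) * (b g * 3)) := by
              apply mul_le_mul_of_nonneg_left _ hg0.le
              exact mul_le_mul h2 h2 h3 (h3.trans h2)
          _ = 9 * (g * (b g * b g)) := by ring
          _ = 9 * (1 / (g : ℝ) ^ 2) := by
              rw [h4]
              field_simp
    _ = 9 * ∑ g ∈ Icc 1 N, 1 / (g : ℝ) ^ 2 := by rw [mul_sum]
    _ ≤ 18 := by
        have := sum_inv_sq N
        linarith

theorem geom_le (x : ℝ) (h0 : 0 ≤ x) (h1 : x ≤ 3 / 4) (n : ℕ) : ∑ j ∈ range n, x ^ j ≤ 4 := by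
  have h := geom_sum_mul_neg x n
  have h2 : 0 ≤ x ^ n := pow_nonneg h0 n
  have h3 : 0 ≤ ∑ j ∈ range n, x ^ j := sum_nonneg fun j _ => pow_nonneg h0 j
  nlinarith

theorem sum_one_div (R : ℕ) : ∑ d ∈ Icc 1 R, 1 / (d : ℝ) ≤ 1 + Real.log R := by
  have h := harmonic_le_one_add_log R
  rw [harmonic_eq_sum_Icc] at h
  push_cast at h
  simpa only [one_div] using h

/-- the bound of a term -/
noncomputable def H (Q0 : ℕ) (K : ℝ) (y : ℕ × ℕ × ℕ) : ℝ :=
  K ^ 2 / √(Q0 : ℝ) * ((1 / √2) ^ y.1 * ((Nat.gcd y.2.1 y.2.2 : ℝ) * (b y.2.1 * b y.2.2))) +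
    K * ((1 / 2) ^ y.1 * (1 / (y.2.1 : ℝ) * (1 / (y.2.2 : ℝ))))

theorem H_nonneg (Q0 : ℕ) (K : ℝ) (hK : 1 ≤ K) (y : ℕ × ℕ × ℕ) : 0 ≤ H Q0 K y := by
  unfold H
  have := b_nonneg y.2.1
  have := b_nonneg y.2.2
  positivity

theorem term_le (Q0 : ℕ) (h0 : 1 ≤ Q0) (K : ℝ) (hK : 1 ≤ K) (j d e Q : ℕ) (hd : 1 ≤ d)
    (he : 1 ≤ e) (hQ : 2 ^ j * (d * e) = Q) (hQ0 : Q0 < Q) :
    K * (K / (Nat.lcm d e : ℕ) + 1) / (Q : ℝ) ≤ H Q0 K (j, d, e) := by
  have hd0 : (0 : ℝ) < d := by exact_mod_cast hd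
  have he0 : (0 : ℝ) < e := by exact_mod_cast he
  have hQr : (0 : ℝ) < Q := by
    have : 0 < Q := by omega
    exact_mod_cast this
  have hQ0r : (0 : ℝ) < Q0 := by exact_mod_cast h0
  have hg0 : (0 : ℝ) < Nat.gcd d e := by exact_mod_cast Nat.gcd_pos_of_pos_left e hd
  have hl0 : (0 : ℝ) < Nat.lcm d e := by exact_mod_cast Nat.lcm_pos hd he
  have hgl : (Nat.gcd d e : ℝ) * (Nat.lcm d e : ℝ) = d * e := by exact_mod_cast Nat.gcd_mul_lcm d e
  have hQc : (Q : ℝ) = 2 ^ j * (d * e) := by rw [← hQ]; push_cast; ring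
  have hlcm : K / (Nat.lcm d e : ℕ) = K * (Nat.gcd d e : ℝ) / (d * e) := by
    rw [← hgl, div_eq_div_iff hl0.ne' (by positivity)]
    ring
  have hs : √(Q : ℝ) = √((2 : ℝ) ^ j) * (√(d : ℝ) * √(e : ℝ)) := by
    rw [hQc, Real.sqrt_mul (by positivity), Real.sqrt_mul hd0.le]
  have hs2 : √((2 : ℝ) ^ j) = √2 ^ j := by
    rw [Real.sqrt_eq_iff_mul_self_eq (by positivity) (by positivity), ← mul_pow,
      Real.mul_self_sqrt (by norm_num)]
  have hQs : (Q : ℝ) = √(Q : ℝ) * √(Q : ℝ) := (Real.mul_self_sqrt hQr.le).symm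
  have hle : √(Q0 : ℝ) ≤ √(Q : ℝ) := Real.sqrt_le_sqrt (by exact_mod_cast hQ0.le)
  have hq0 : 0 < √(Q0 : ℝ) := Real.sqrt_pos.2 hQ0r
  have hq : 0 < √(Q : ℝ) := Real.sqrt_pos.2 hQr
  have h1 : 1 / (Q : ℝ) ≤ 1 / (√(Q0 : ℝ) * √(Q : ℝ)) := by
    apply one_div_le_one_div_of_le (by positivity)
    calc √(Q0 : ℝ) * √(Q : ℝ) ≤ √(Q : ℝ) * √(Q : ℝ) := mul_le_mul_of_nonneg_right hle hq.le
      _ = Q := hQs.symm
  have e1 : K * (K / (Nat.lcm d e : ℕ) + 1) / (Q : ℝ) =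
      K ^ 2 * ((Nat.gcd d e : ℝ) / (d * e)) * (1 / (Q : ℝ)) + K * (1 / (Q : ℝ)) := by
    rw [hlcm]
    ring
  have e2 : K ^ 2 / √(Q0 : ℝ) * ((1 / √2) ^ j * ((Nat.gcd d e : ℝ) * (b d * b e))) =
      K ^ 2 * ((Nat.gcd d e : ℝ) / (d * e)) * (1 / (√(Q0 : ℝ) * √(Q : ℝ))) := by
    unfold b
    rw [hs, hs2]
    have hz : √(2 : ℝ) ≠ 0 := (Real.sqrt_pos.2 (by norm_num)).ne'
    rw [one_div_pow]
    field_simp
  have e3 : K * ((1 / 2) ^ j * (1 / (d : ℝ) * (1 / (e : ℝ)))) = K * (1 / (Q : ℝ)) := by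
    rw [hQc, one_div_pow]
    field_simp
  change _ ≤ K ^ 2 / √(Q0 : ℝ) * ((1 / √2) ^ j * ((Nat.gcd d e : ℝ) * (b d * b e))) +
    K * ((1 / 2) ^ j * (1 / (d : ℝ) * (1 / (e : ℝ))))
  rw [e1, e2, e3]
  have : K ^ 2 * ((Nat.gcd d e : ℝ) / (d * e)) * (1 / (Q : ℝ)) ≤
      K ^ 2 * ((Nat.gcd d e : ℝ) / (d * e)) * (1 / (√(Q0 : ℝ) * √(Q : ℝ))) :=
    mul_le_mul_of_nonneg_left h1 (by positivity)
  linarith

theorem sum_H (Q0 R : ℕ) (K : ℝ) (hK : 1 ≤ K) :
    ∑ y ∈ range (R + 1) ×ˢ (Icc 1 R ×ˢ Icc 1 R), H Q0 K y ≤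
      72 * (K ^ 2 / √(Q0 : ℝ) + K * (1 + Real.log R) ^ 2) := by
  have hs2 : (0 : ℝ) < √2 := Real.sqrt_pos.2 (by norm_num)
  have hx : 1 / √2 ≤ 3 / 4 := by
    rw [div_le_div_iff₀ hs2 (by norm_num)]
    have h1 : (4 / 3 : ℝ) ≤ √2 := by
      apply Real.le_sqrt_of_sq_le
      norm_num
    linarith
  have g1 := geom_le (1 / √2) (by positivity) hx (R + 1)
  have g2 := geom_le (1 / 2) (by norm_num) (by norm_num) (R + 1)
  have g3 := sum_gcd R
  have g4 := sum_one_div R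
  have e : ∑ y ∈ range (R + 1) ×ˢ (Icc 1 R ×ˢ Icc 1 R), H Q0 K y =
      K ^ 2 / √(Q0 : ℝ) * ((∑ j ∈ range (R + 1), (1 / √2) ^ j) *
        ∑ d ∈ Icc 1 R, ∑ e ∈ Icc 1 R, (Nat.gcd d e : ℝ) * (b d * b e)) +
      K * ((∑ j ∈ range (R + 1), (1 / 2 : ℝ) ^ j) *
        ((∑ d ∈ Icc 1 R, 1 / (d : ℝ)) * ∑ e ∈ Icc 1 R, 1 / (e : ℝ))) := by
    unfold H
    rw [sum_add_distrib, ← mul_sum, ← mul_sum]
    congr 1
    · congr 1
      rw [sum_product, sum_mul_sum]
      apply sum_congr rfl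
      intro j _
      rw [sum_product]
      apply sum_congr rfl
      intro d _
      rw [mul_sum]
    · congr 1
      rw [sum_product, sum_mul]
      apply sum_congr rfl
      intro j _
      rw [sum_product, sum_mul_sum, mul_sum]
      apply sum_congr rfl
      intro d _
      rw [mul_sum]
  rw [e]
  have p1 : 0 ≤ ∑ j ∈ range (R + 1), (1 / √2) ^ j := sum_nonneg fun j _ => by positivity
  have p2 : 0 ≤ ∑ j ∈ range (R + 1), (1 / 2 : ℝ) ^ j := sum_nonneg fun j _ => by positivity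
  have p3 : 0 ≤ ∑ d ∈ Icc 1 R, ∑ e ∈ Icc 1 R, (Nat.gcd d e : ℝ) * (b d * b e) :=
    sum_nonneg fun d _ => sum_nonneg fun e _ => by
      have := b_nonneg d
      have := b_nonneg e
      positivity
  have p4 : 0 ≤ ∑ d ∈ Icc 1 R, 1 / (d : ℝ) := sum_nonneg fun j _ => by positivity
  have q1 : (∑ j ∈ range (R + 1), (1 / √2) ^ j) *
        ∑ d ∈ Icc 1 R, ∑ e ∈ Icc 1 R, (Nat.gcd d e : ℝ) * (b d * b e) ≤ 4 * 18 :=
    mul_le_mul g1 g3 p3 (by norm_num)
  have q2 : (∑ j ∈ range (R + 1), (1 / 2 : ℝ) ^ j) *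
        ((∑ d ∈ Icc 1 R, 1 / (d : ℝ)) * ∑ e ∈ Icc 1 R, 1 / (e : ℝ)) ≤
        4 * ((1 + Real.log R) * (1 + Real.log R)) :=
    mul_le_mul g2 (mul_le_mul g4 g4 p4 (p4.trans g4)) (mul_nonneg p4 p4) (by norm_num)
  have k1 : 0 ≤ K ^ 2 / √(Q0 : ℝ) := by positivity
  have k2 := mul_le_mul_of_nonneg_left q1 k1
  have k3 := mul_le_mul_of_nonneg_left q2 (by linarith : (0 : ℝ) ≤ K)
  have k4 : 0 ≤ K * (1 + Real.log R) ^ 2 := by positivity
  calc _ ≤ K ^ 2 / √(Q0 : ℝ) * (4 * 18) + K * (4 * ((1 + Real.log R) * (1 + Real.log R))) :=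
        add_le_add k2 k3
    _ = 72 * (K ^ 2 / √(Q0 : ℝ)) + 4 * (K * (1 + Real.log R) ^ 2) := by ring
    _ ≤ 72 * (K ^ 2 / √(Q0 : ℝ) + K * (1 + Real.log R) ^ 2) := by linarith

theorem t_SERN2 : SERN2 := by
  refine ⟨72, by norm_num, ?_⟩
  intro Q0 R h0 hR K hK
  refine le_trans ?_ (sum_H Q0 R K hK)
  simp_rw [sum_div]
  rw [sum_sigma']
  have hmem : ∀ x ∈ (Ioc Q0 R).sigma (fun Q => (ordCompl[2] Q).divisorsAntidiagonal),
      Q0 < x.1 ∧ x.1 ≤ R ∧ 1 ≤ x.2.1 ∧ 1 ≤ x.2.2 ∧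
        2 ^ (x.1.factorization 2) * (x.2.1 * x.2.2) = x.1 := by
    intro x hx
    rw [mem_sigma, mem_Ioc, Nat.mem_divisorsAntidiagonal] at hx
    obtain ⟨⟨h1, h2⟩, h3, h4⟩ := hx
    have h5 : x.2.1 * x.2.2 ≠ 0 := by rw [h3]; exact h4
    refine ⟨h1, h2, Nat.pos_of_ne_zero (left_ne_zero_of_mul h5),
      Nat.pos_of_ne_zero (right_ne_zero_of_mul h5), ?_⟩
    rw [h3]
    exact Nat.ordProj_mul_ordCompl_eq_self x.1 2
  have hinj : Set.InjOn (fun x : (Σ _ : ℕ, ℕ × ℕ) => (x.1.factorization 2, x.2.1, x.2.2))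
      ↑((Ioc Q0 R).sigma (fun Q => (ordCompl[2] Q).divisorsAntidiagonal)) := by
    intro x hx y hy hxy
    have h1 := (hmem x hx).2.2.2.2
    have h2 := (hmem y hy).2.2.2.2
    simp only [Prod.mk.injEq] at hxy
    obtain ⟨a1, a2, a3⟩ := hxy
    rw [a1, a2, a3] at h1
    obtain ⟨x1, x2⟩ := x
    obtain ⟨y1, y2⟩ := y
    have h3 : x1 = y1 := h1.symm.trans h2
    subst h3
    congr 1
    exact Prod.ext a2 a3
  calc _ ≤ ∑ x ∈ (Ioc Q0 R).sigma (fun Q => (ordCompl[2] Q).divisorsAntidiagonal),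
        H Q0 K (x.1.factorization 2, x.2.1, x.2.2) := by
        apply sum_le_sum
        intro x hx
        obtain ⟨h1, h2, h3, h4, h5⟩ := hmem x hx
        exact term_le Q0 h0 K hK _ _ _ _ h3 h4 h5 h1
    _ = ∑ y ∈ ((Ioc Q0 R).sigma (fun Q => (ordCompl[2] Q).divisorsAntidiagonal)).image
          (fun x : (Σ _ : ℕ, ℕ × ℕ) => (x.1.factorization 2, x.2.1, x.2.2)), H Q0 K y := by
        rw [sum_image hinj]
    _ ≤ _ := by
        apply sum_le_sum_of_subset_of_nonneg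
        · intro y hy
          rw [mem_image] at hy
          obtain ⟨x, hx, rfl⟩ := hy
          obtain ⟨h1, h2, h3, h4, h5⟩ := hmem x hx
          have h6 : 2 ^ (x.1.factorization 2) ≤ x.1 := by
            calc 2 ^ (x.1.factorization 2) ≤ 2 ^ (x.1.factorization 2) * (x.2.1 * x.2.2) :=
                  Nat.le_mul_of_pos_right _ (Nat.mul_pos h3 h4)
              _ = x.1 := h5
          have h7 : x.2.1 * x.2.2 ≤ x.1 := by
            calc x.2.1 * x.2.2 ≤ 2 ^ (x.1.factorization 2) * (x.2.1 * x.2.2) :=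
                  Nat.le_mul_of_pos_left _ (by positivity)
              _ = x.1 := h5
          have h8 : x.1.factorization 2 < 2 ^ (x.1.factorization 2) := Nat.lt_two_pow_self
          rw [mem_product, mem_product, mem_range, mem_Icc, mem_Icc]
          refine ⟨by simp only; omega, ⟨h3, ?_⟩, ⟨h4, ?_⟩⟩
          · exact ((Nat.le_mul_of_pos_right _ h4).trans h7).trans h2
          · exact ((Nat.le_mul_of_pos_left _ h3).trans h7).trans h2
        · intro y _ _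
          exact H_nonneg Q0 K hK y

end Pool.Agent.N921.AO
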